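import Pool.Agent.R901.ST.Defs

/-!
# Positive scalar curvature bordism for actions of finite groups: the groups `R_n` and the map `Θ`
(helper901)
-/

set_option autoImplicit false

open Topology

namespace Pool.Agent.R901.ST

universe u v

instance finite_carrier {Γ : Type} [Group Γ] {S : Type} [Finite S] [MulAction Γ S]
    (U : Part (GSpace.ofSet (Γ := Γ) S)) : Finite U.carrier :=
  @Subtype.finite S ‹Finite S› (fun x => x ∈ U.carrier)

/-- The geometry which is used in the definition of the groups `R_n^spin(pt)^Γ` for a finite group `Γ`,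
with its elementary properties. All manifolds are compact and smooth. -/
structure Geometry (Γ : Type) [Group Γ] [Finite Γ] where
  /-- `Geo n X` is the set of structures of a Riemannian spin manifold of dimension `n`, possibly with
  boundary or corners, on the `Γ`-space `X` for which `Γ` acts by isometries preserving the spin
  structure. -/
  Geo : ℕ → GSpace Γ → Type u
  /-- `Psc g`: the invariant metrics of positive scalar curvature on the manifold `g`, which are
  products near the boundary. -/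
  Psc : ∀ {n : ℕ} {X : GSpace Γ}, Geo n X → Type u
  /-- `BdPsc g`: the invariant metrics of positive scalar curvature on the boundary of `g`. -/
  BdPsc : ∀ {n : ℕ} {X : GSpace Γ}, Geo n X → Type u
  /-- Restriction of the manifold structure to an invariant union of components. -/
  resGeo : ∀ {n : ℕ} {X : GSpace Γ} (_ : Geo n X) (U : Part X), Geo n (X.sub U)
  /-- Restriction of metrics. -/
  resPsc : ∀ {n : ℕ} {X : GSpace Γ} {g : Geo n X} (_ : Psc g) (U : Part X), Psc (resGeo g U)
  /-- Restriction of metrics on the boundary. -/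
  resBdPsc : ∀ {n : ℕ} {X : GSpace Γ} {g : Geo n X} (_ : BdPsc g) (U : Part X),
    BdPsc (resGeo g U)
  /-- `Joins h₁ h₂ H gW i₁ i₂ iV` is the identification of the triples `(X₁, h₁)` and `(X₂, h₂)` by `V`
  and `W`: (a) `(V, H)` is a bordism from `(∂X₁, h₁)` to `(∂X₂, h₂)`, the metric `H` is a product near
  `∂Xᵢ` and restricts to `hᵢ`; (b) the closed manifold `X₁ ∪ V ∪ X₂` (with the appropriate orientations)
  is the boundary of the manifold `W`, by means of the embeddings `i₁, i₂, iV`. -/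
  Joins : ∀ {n : ℕ} {X₁ X₂ V W : GSpace Γ} {g₁ : Geo n X₁} (_ : BdPsc g₁) {g₂ : Geo n X₂}
    (_ : BdPsc g₂) {gV : Geo n V} (_ : Psc gV) (_ : Geo (n + 1) W) (_ : GMap X₁ W)
    (_ : GMap X₂ W) (_ : GMap V W), Prop
  /-- `i₁` is injective. -/
  joins_inj₁ : ∀ {n : ℕ} {X₁ X₂ V W : GSpace Γ} {g₁ : Geo n X₁} {h₁ : BdPsc g₁} {g₂ : Geo n X₂}
    {h₂ : BdPsc g₂} {gV : Geo n V} {H : Psc gV} {gW : Geo (n + 1) W} {i₁ : GMap X₁ W}
    {i₂ : GMap X₂ W} {iV : GMap V W}, Joins h₁ h₂ H gW i₁ i₂ iV → Function.Injective i₁.toFun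
  /-- `i₂` is injective. -/
  joins_inj₂ : ∀ {n : ℕ} {X₁ X₂ V W : GSpace Γ} {g₁ : Geo n X₁} {h₁ : BdPsc g₁} {g₂ : Geo n X₂}
    {h₂ : BdPsc g₂} {gV : Geo n V} {H : Psc gV} {gW : Geo (n + 1) W} {i₁ : GMap X₁ W}
    {i₂ : GMap X₂ W} {iV : GMap V W}, Joins h₁ h₂ H gW i₁ i₂ iV → Function.Injective i₂.toFun
  /-- The identification restricts to each invariant union `U` of components of `W`. -/
  joins_res : ∀ {n : ℕ} {X₁ X₂ V W : GSpace Γ} {g₁ : Geo n X₁} {h₁ : BdPsc g₁} {g₂ : Geo n X₂}
    {h₂ : BdPsc g₂} {gV : Geo n V} {H : Psc gV} {gW : Geo (n + 1) W} {i₁ : GMap X₁ W}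
    {i₂ : GMap X₂ W} {iV : GMap V W}, Joins h₁ h₂ H gW i₁ i₂ iV → ∀ U : Part W,
      Joins (resBdPsc h₁ (U.comap i₁)) (resBdPsc h₂ (U.comap i₂)) (resPsc H (U.comap iV))
        (resGeo gW U) (i₁.restrict U) (i₂.restrict U) (iV.restrict U)
  /-- If an isometry of `W` fixes all points of an open subset of the part `X₁` of the boundary, it fixes
  all points of the component of `W`. -/
  joins_fix₁ : ∀ {n : ℕ} {X₁ X₂ V W : GSpace Γ} {g₁ : Geo n X₁} {h₁ : BdPsc g₁} {g₂ : Geo n X₂}
    {h₂ : BdPsc g₂} {gV : Geo n V} {H : Psc gV} {gW : Geo (n + 1) W} {i₁ : GMap X₁ W}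
    {i₂ : GMap X₂ W} {iV : GMap V W}, Joins h₁ h₂ H gW i₁ i₂ iV → ∀ (γ : Γ) (x : X₁.pts),
      (∀ᶠ y in 𝓝 x, γ • y = y) → ∀ w ∈ connectedComponent (i₁.toFun x), γ • w = w
  /-- The same for `X₂`. -/
  joins_fix₂ : ∀ {n : ℕ} {X₁ X₂ V W : GSpace Γ} {g₁ : Geo n X₁} {h₁ : BdPsc g₁} {g₂ : Geo n X₂}
    {h₂ : BdPsc g₂} {gV : Geo n V} {H : Psc gV} {gW : Geo (n + 1) W} {i₁ : GMap X₁ W}
    {i₂ : GMap X₂ W} {iV : GMap V W}, Joins h₁ h₂ H gW i₁ i₂ iV → ∀ (γ : Γ) (x : X₂.pts),
      (∀ᶠ y in 𝓝 x, γ • y = y) → ∀ w ∈ connectedComponent (i₂.toFun x), γ • w = w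
  /-- The Bott manifold. -/
  B : Type
  [topB : TopologicalSpace B]
  [compB : CompactSpace B]
  [connB : ConnectedSpace B]
  /-- The product with the Bott manifold. -/
  prodGeo : ∀ {n : ℕ} {X : GSpace Γ}, Geo n X → Geo (n + 8) (X.prod B)
  /-- The product of a metric of positive scalar curvature on the boundary with the scalar-flat metric
  of the Bott manifold. -/
  prodBdPsc : ∀ {n : ℕ} {X : GSpace Γ} {g : Geo n X}, BdPsc g → BdPsc (prodGeo g)
  /-- A finite set with an action of `Γ`, as a closed spin manifold of dimension zero (all points have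
  the orientation `+`, the action on the spin structure is the trivial one). -/
  ofSetGeo : ∀ (S : Type) [Finite S] [MulAction Γ S], Geo 0 (GSpace.ofSet (Γ := Γ) S)
  /-- The empty boundary has its empty metric. -/
  ofSetBdPsc : ∀ (S : Type) [Finite S] [MulAction Γ S], BdPsc (ofSetGeo S)

attribute [instance] Geometry.topB Geometry.compB Geometry.connB

namespace Geometry

variable {Γ : Type} [Group Γ] [Finite Γ] (𝒢 : Geometry.{u} Γ)

/-- The triples `(L, f, h)` in the definition of `R_n^spin(pt)^Γ`; there is only one map `f` from `L` to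
the point. -/
structure Triple (n : ℕ) where
  X : GSpace Γ
  geo : 𝒢.Geo n X
  h : 𝒢.BdPsc geo

variable {𝒢}

/-- The triples `L` and `L'` are identified by (a) and (b). -/
def Related {n : ℕ} (L L' : 𝒢.Triple n) : Prop :=
  ∃ (V W : GSpace Γ) (gV : 𝒢.Geo n V) (H : 𝒢.Psc gV) (gW : 𝒢.Geo (n + 1) W) (i₁ : GMap L.X W)
    (i₂ : GMap L'.X W) (iV : GMap V W), 𝒢.Joins L.h L'.h H gW i₁ i₂ iV

/-- The restriction to an invariant union of components. -/
def Triple.sub {n : ℕ} (L : 𝒢.Triple n) (U : Part L.X) : 𝒢.Triple n :=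
  ⟨L.X.sub U, 𝒢.resGeo L.geo U, 𝒢.resBdPsc L.h U⟩

/-- The product with the Bott manifold. -/
def Triple.bott {n : ℕ} (L : 𝒢.Triple n) : 𝒢.Triple (n + 8) :=
  ⟨L.X.prod 𝒢.B, 𝒢.prodGeo L.geo, 𝒢.prodBdPsc L.h⟩

variable (𝒢)

/-- The finite set `S` as a manifold of dimension zero. -/
def ofSet (S : Type) [Finite S] [MulAction Γ S] : 𝒢.Triple 0 :=
  ⟨GSpace.ofSet S, 𝒢.ofSetGeo S, 𝒢.ofSetBdPsc S⟩

/-- `n + 8 k` -/
def dim (n : ℕ) : ℕ → ℕ
  | 0 => n
  | k + 1 => dim n k + 8

variable {𝒢} in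
/-- The product with the `k`-th power of the Bott manifold. -/
def Triple.bottPow {n : ℕ} (L : 𝒢.Triple n) : ∀ k : ℕ, 𝒢.Triple (dim n k)
  | 0 => L
  | k + 1 => (L.bottPow k).bott

/-- One step in the definition of `R_n^spin(pt)^Γ[B⁻¹]`: two triples of the same dimension are identified,
or a triple is multiplied by the Bott manifold. -/
inductive Step (n : ℕ) : (Σ k : ℕ, 𝒢.Triple (dim n k)) → (Σ k : ℕ, 𝒢.Triple (dim n k)) → Prop
  | related {k : ℕ} {L L' : 𝒢.Triple (dim n k)} : Related L L' → Step n ⟨k, L⟩ ⟨k, L'⟩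
  | bott {k : ℕ} (L : 𝒢.Triple (dim n k)) : Step n ⟨k, L⟩ ⟨k + 1, L.bott⟩

/-- `R_n^spin(pt)^Γ[B⁻¹]`, the direct limit of the sets of classes of triples of the dimensions `n + 8 k`
along the products with the Bott manifold. -/
def R (n : ℕ) : Type (max 1 u) := Quot (𝒢.Step n)

/-- The class of a triple. -/
def cl {n : ℕ} (L : 𝒢.Triple n) : 𝒢.R n := Quot.mk _ ⟨0, L⟩

/-- Isometric triples are identified, for two elementary isometries. -/
structure Lawful : Prop where
  /-- `(X × B) | (U × B)` and `(X | U) × B` are isometric, hence identified. -/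
  related_prod : ∀ {n : ℕ} (L : 𝒢.Triple n) (U : Part L.X),
    Related ((L.bott).sub (U.comap (L.X.fst 𝒢.B))) ((L.sub U).bott)
  /-- The restriction of the manifold of dimension zero given by `S` to an invariant subset is the
  manifold given by this subset. -/
  related_ofSet : ∀ (S : Type) [Finite S] [MulAction Γ S] (U : Part (GSpace.ofSet (Γ := Γ) S)),
    Related ((𝒢.ofSet S).sub U) (𝒢.ofSet U.carrier)

end Geometry

/-- The real permutation representation of a set with an action of `Γ`: `(g f)(s) = f(g⁻¹ s)`. -/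
def permRep (Γ : Type) [Group Γ] (S : Type) [MulAction Γ S] : Representation ℝ Γ (S → ℝ) where
  toFun g := LinearMap.funLeft ℝ ℝ fun s => g⁻¹ • s
  map_one' := by
    ext f s
    simp [LinearMap.funLeft_apply]
  map_mul' g h := by
    refine LinearMap.ext fun f => funext fun s => ?_
    simp [LinearMap.funLeft_apply, mul_smul]

/-- Equivalence of real representations. -/
def RepEquiv {Γ : Type} [Group Γ] {V V' : Type} [AddCommGroup V] [Module ℝ V] [AddCommGroup V']
    [Module ℝ V'] (ρ : Representation ℝ Γ V) (ρ' : Representation ℝ Γ V') : Prop :=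
  ∃ e : V ≃ₗ[ℝ] V', ∀ (g : Γ) (v : V), e (ρ g v) = ρ' g (e v)

/-- The groups `KO_n(C*_r(Γ; ℝ))` and the relative higher index of the Dirac operator, for a finite
group `Γ`. -/
structure Index {Γ : Type} [Group Γ] [Finite Γ] (𝒢 : Geometry.{u} Γ) where
  /-- The groups `KO_n(C*_r(Γ; ℝ))`. -/
  KO : ℕ → Type v
  [addCommGroup : ∀ n, AddCommGroup (KO n)]
  /-- Bott periodicity. -/
  period : ∀ n, KO n ≃+ KO (n + 8)
  /-- The relative higher index of a triple. -/
  ind : ∀ {n : ℕ}, 𝒢.Triple n → KO n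
  /-- The map `Θ` is well defined: identified triples have the same index. -/
  ind_related : ∀ {n : ℕ} {L L' : 𝒢.Triple n}, Geometry.Related L L' → ind L = ind L'
  /-- The index is unchanged by the product with the Bott manifold. -/
  ind_bott : ∀ {n : ℕ} (L : 𝒢.Triple n), ind L.bott = period n (ind L)
  /-- The class of a real representation in `KO_0(C*_r(Γ; ℝ)) = K_0(ℝ[Γ])`. -/
  cls : ∀ {V : Type} [AddCommGroup V] [Module ℝ V] [Module.Finite ℝ V], Representation ℝ Γ V → KO 0
  /-- The class determines the representation up to equivalence (`ℝ[Γ]` is semisimple). -/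
  cls_eq_iff : ∀ {V V' : Type} [AddCommGroup V] [Module ℝ V] [Module.Finite ℝ V] [AddCommGroup V']
    [Module ℝ V'] [Module.Finite ℝ V'] (ρ : Representation ℝ Γ V) (ρ' : Representation ℝ Γ V'),
    cls ρ = cls ρ' ↔ RepEquiv ρ ρ'
  /-- The index of a manifold of dimension zero is its permutation representation. -/
  ind_ofSet : ∀ (S : Type) [Finite S] [MulAction Γ S],
    ind (𝒢.ofSet S) = cls (permRep Γ S)

attribute [instance] Index.addCommGroup

namespace Index

variable {Γ : Type} [Group Γ] [Finite Γ] {𝒢 : Geometry.{u} Γ} (I : Index.{u, v} 𝒢)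

/-- The inverse of the periodicity isomorphism `KO_n ≅ KO_{n + 8 k}`. -/
def down (n : ℕ) : ∀ k : ℕ, I.KO (Geometry.dim n k) → I.KO n
  | 0, x => x
  | k + 1, x => down n k ((I.period _).symm x)

/-- The map `Θ : R_n^spin(pt)^Γ[B⁻¹] → KO_n(C*_r(Γ; ℝ))`. -/
def theta (n : ℕ) : 𝒢.R n → I.KO n :=
  Quot.lift (fun p => I.down n p.1 (I.ind p.2)) (by
    rintro _ _ (h | L)
    · exact congrArg _ (I.ind_related h)
    · show _ = I.down n _ ((I.period _).symm (I.ind L.bott))
      rw [I.ind_bott, AddEquiv.symm_apply_apply])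

end Index

end Pool.Agent.R901.ST
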